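import Mathlib

set_option autoImplicit false

/-!
# A nearfield design of order `343` which is not a Galois field design

The Dickson nearfield of order `343 = 7 ^ 3` has `19` subgroups of order `9`.  For one of them, `G`,
two blocks of the design `D(N, Φ, G)` have exactly three common points, while two different
blocks of the Galois field design `D(343, 9)` never have three common points.
-/

namespace Pool.Agent.Results.MP_fd05bb_co.NearfieldOrder343

/-- A nearfield: an abelian group with respect to addition, the nonzero elements form a group with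
respect to multiplication, `x * 0 = 0` (and `0 * x = 0`) for all `x`, and the right distributive law
holds. -/
class Nearfield (N : Type) extends AddCommGroup N, GroupWithZero N where
  right_distrib' : ∀ x y z : N, (x + y) * z = x * z + y * z

/-- The block set of the design `D(N, Φ, G)`: all sets `{x * s + a | x ∈ G}` with `s ∈ S` and
`a ∈ N`.  (`N` is a nearfield or a field, `G` and `S` are subgroups of its multiplicative group.) -/
def blocks (N : Type) [Add N] [Monoid N] (S G : Subgroup Nˣ) : Set (Set N) :=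
  {B | ∃ s ∈ S, ∃ a : N, B = {y | ∃ u ∈ G, y = (u : N) * s + a}}

/-- triples over `ZMod 7`; `(a, b, c)` stands for `a + b ξ + c ξ ^ 2` with `ξ ^ 3 = 2` -/
@[ext] structure E : Type where
  a : ZMod 7
  b : ZMod 7
  c : ZMod 7
deriving DecidableEq

namespace E

def toProd : E ≃ ZMod 7 × ZMod 7 × ZMod 7 where
  toFun x := (x.a, x.b, x.c)
  invFun x := ⟨x.1, x.2.1, x.2.2⟩
  left_inv _ := rfl
  right_inv _ := rfl

instance : Fintype E := Fintype.ofEquiv _ toProd.symm

theorem card_E : Fintype.card E = 343 := by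
  rw [Fintype.card_congr toProd]
  simp [ZMod.card]

instance : Zero E := ⟨⟨0, 0, 0⟩⟩
instance : One E := ⟨⟨1, 0, 0⟩⟩
instance : Add E := ⟨fun x y => ⟨x.a + y.a, x.b + y.b, x.c + y.c⟩⟩
instance : Neg E := ⟨fun x => ⟨-x.a, -x.b, -x.c⟩⟩
instance : Mul E := ⟨fun x y => ⟨x.a * y.a + 2 * (x.b * y.c + x.c * y.b),
  x.a * y.b + x.b * y.a + 2 * (x.c * y.c), x.a * y.c + x.b * y.b + x.c * y.a⟩⟩

theorem zero_def : (0 : E) = ⟨0, 0, 0⟩ := rfl
theorem one_def : (1 : E) = ⟨1, 0, 0⟩ := rfl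
theorem add_def (x y : E) : x + y = ⟨x.a + y.a, x.b + y.b, x.c + y.c⟩ := rfl
theorem neg_def (x : E) : -x = ⟨-x.a, -x.b, -x.c⟩ := rfl
theorem mul_def (x y : E) : x * y = ⟨x.a * y.a + 2 * (x.b * y.c + x.c * y.b),
  x.a * y.b + x.b * y.a + 2 * (x.c * y.c), x.a * y.c + x.b * y.b + x.c * y.a⟩ := rfl

instance : CommRing E where
  add_assoc x y z := by simp only [add_def, add_assoc]
  zero_add x := by ext <;> simp [add_def, zero_def]
  add_zero x := by ext <;> simp [add_def, zero_def]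
  add_comm x y := by ext <;> simp [add_def, add_comm]
  neg_add_cancel x := by ext <;> simp [add_def, zero_def, neg_def]
  mul_assoc x y z := by ext <;> simp only [mul_def] <;> ring
  one_mul x := by ext <;> simp [mul_def, one_def]
  mul_one x := by ext <;> simp [mul_def, one_def]
  mul_comm x y := by ext <;> simp only [mul_def] <;> ring
  left_distrib x y z := by ext <;> simp only [mul_def, add_def] <;> ring
  right_distrib x y z := by ext <;> simp only [mul_def, add_def] <;> ring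
  zero_mul x := by ext <;> simp [mul_def, zero_def]
  mul_zero x := by ext <;> simp [mul_def, zero_def]
  nsmul := nsmulRec
  zsmul := zsmulRec

/-- the norm -/
def nrm (x : E) : ZMod 7 := x.a ^ 3 + 2 * x.b ^ 3 + 4 * x.c ^ 3 - 6 * (x.a * x.b * x.c)

/-- the adjugate -/
def adj (x : E) : E :=
  ⟨x.a ^ 2 - 2 * (x.b * x.c), 2 * x.c ^ 2 - x.a * x.b, x.b ^ 2 - x.a * x.c⟩

def sc (r : ZMod 7) (x : E) : E := ⟨r * x.a, r * x.b, r * x.c⟩

theorem nrm_mul (x y : E) : nrm (x * y) = nrm x * nrm y := by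
  simp only [nrm, mul_def]; ring

theorem nrm_eq_zero : ∀ a b c : ZMod 7, nrm ⟨a, b, c⟩ = 0 → a = 0 ∧ b = 0 ∧ c = 0 := by
  decide +kernel

theorem nrm_ne {x : E} (h : x ≠ 0) : nrm x ≠ 0 := by
  intro h0
  apply h
  obtain ⟨h1, h2, h3⟩ := nrm_eq_zero x.a x.b x.c h0
  ext <;> simp [zero_def, h1, h2, h3]

theorem nrm_zero : nrm 0 = 0 := by decide +kernel
theorem nrm_one : nrm 1 = 1 := by decide +kernel

theorem mul_adj (x : E) : x * adj x = ⟨nrm x, 0, 0⟩ := by
  ext <;> simp only [mul_def, adj, nrm] <;> ring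

instance : Fact (Nat.Prime 7) := ⟨by norm_num⟩

noncomputable instance : Field E where
  inv x := sc (nrm x)⁻¹ (adj x)
  exists_pair_ne := ⟨0, 1, by decide +kernel⟩
  mul_inv_cancel x hx := by
    change x * sc (nrm x)⁻¹ (adj x) = 1
    have h1 : x * sc (nrm x)⁻¹ (adj x) = sc (nrm x)⁻¹ (x * adj x) := by
      ext <;> simp only [mul_def, sc] <;> ring
    rw [h1, mul_adj]
    have h2 := nrm_ne hx
    ext <;> simp [sc, one_def, h2]
  inv_zero := by
    change sc (nrm 0)⁻¹ (adj 0) = 0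
    rw [nrm_zero, inv_zero]
    ext <;> simp [sc, zero_def]
  nnqsmul := _
  nnqsmul_def := fun _ _ => rfl
  qsmul := _
  qsmul_def := fun _ _ => rfl

/-- powers of the cube root of unity `4` -/
def w (k : ZMod 3) : ZMod 7 := 4 ^ k.val

theorem w_add : ∀ j k : ZMod 3, w (j + k) = w j * w k := by decide +kernel
theorem w_cube : ∀ k : ZMod 3, w k ^ 3 = 1 := by decide +kernel
theorem w_zero : w 0 = 1 := by decide +kernel

/-- the powers of the Frobenius automorphism -/
def fr (k : ZMod 3) (x : E) : E := ⟨x.a, w k * x.b, w k ^ 2 * x.c⟩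

theorem fr_mul (k : ZMod 3) (x y : E) : fr k (x * y) = fr k x * fr k y := by
  have h := w_cube k
  ext <;> simp only [fr, mul_def]
  · linear_combination (-2 * (x.b * y.c + x.c * y.b)) * h
  · linear_combination (-2 * w k * (x.c * y.c)) * h
  · ring

theorem fr_add (k : ZMod 3) (x y : E) : fr k (x + y) = fr k x + fr k y := by
  ext <;> simp only [fr, add_def] <;> ring

theorem fr_fr (j k : ZMod 3) (x : E) : fr j (fr k x) = fr (j + k) x := by
  ext <;> simp only [fr, w_add] <;> ring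

theorem fr_zero (x : E) : fr 0 x = x := by
  ext <;> simp [fr, w_zero]

theorem fr_at_zero (k : ZMod 3) : fr k 0 = 0 := by
  ext <;> simp [fr, zero_def]

theorem fr_at_one (k : ZMod 3) : fr k 1 = 1 := by
  ext <;> simp [fr, one_def]

theorem nrm_fr (k : ZMod 3) (x : E) : nrm (fr k x) = nrm x := by
  have h := w_cube k
  simp only [nrm, fr]
  linear_combination (2 * x.b ^ 3 + 4 * x.c ^ 3 * (w k ^ 3 + 1) - 6 * (x.a * x.b * x.c)) * h

/-- the cubic residue class of the norm -/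
def κ (r : ZMod 7) : ZMod 3 := if r = 1 ∨ r = 6 then 0 else if r = 2 ∨ r = 5 then 1 else 2

theorem κ_mul : ∀ r s : ZMod 7, r ≠ 0 → s ≠ 0 → κ (r * s) = κ r + κ s := by decide +kernel
theorem κ_one : κ 1 = 0 := by decide +kernel

end E

open E

/-- the nearfield product `x ∘ z = φ x * z`, where the power `φ` of the Frobenius automorphism
depends on the cubic residue class of the norm of `z` -/
def nmul (x z : E) : E := fr (κ (nrm z)) x * z

theorem nmul_zero (x : E) : nmul x 0 = 0 := by simp [nmul]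
theorem zero_nmul (x : E) : nmul 0 x = 0 := by simp [nmul, fr_at_zero]

theorem nmul_assoc (x y z : E) : nmul (nmul x y) z = nmul x (nmul y z) := by
  by_cases hy : y = 0
  · subst hy; simp [nmul_zero, zero_nmul]
  by_cases hz : z = 0
  · subst hz; simp [nmul_zero]
  unfold nmul
  rw [nrm_mul, nrm_fr, κ_mul _ _ (nrm_ne hy) (nrm_ne hz), fr_mul, fr_fr, mul_assoc,
    add_comm (κ (nrm y))]

theorem one_nmul (x : E) : nmul 1 x = x := by simp [nmul, fr_at_one]
theorem nmul_one (x : E) : nmul x 1 = x := by simp [nmul, nrm_one, κ_one, fr_zero]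

theorem add_nmul (x y z : E) : nmul (x + y) z = nmul x z + nmul y z := by
  unfold nmul
  rw [fr_add, add_mul]

theorem nrm_nmul (x z : E) : nrm (nmul x z) = nrm x * nrm z := by
  unfold nmul
  rw [nrm_mul, nrm_fr]

/-- the nearfield inverse -/
noncomputable def ninv (x : E) : E := fr (-κ (nrm x)) x⁻¹

theorem ninv_zero : ninv 0 = 0 := by
  unfold ninv
  rw [inv_zero, fr_at_zero]

theorem nmul_ninv (x : E) (hx : x ≠ 0) : nmul x (ninv x) = 1 := by
  unfold nmul ninv
  rw [nrm_fr]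
  have h1 : κ (nrm x⁻¹) = -κ (nrm x) := by
    have h2 : κ (nrm x * nrm x⁻¹) = 0 := by
      rw [← nrm_mul, mul_inv_cancel₀ hx, nrm_one, κ_one]
    rw [κ_mul _ _ (nrm_ne hx) (nrm_ne (inv_ne_zero hx))] at h2
    exact eq_neg_of_add_eq_zero_right h2
  rw [h1, ← fr_mul, mul_inv_cancel₀ hx, fr_at_one]

/-- The Dickson nearfield of order `343`. -/
@[ext] structure NF : Type where
  val : E
deriving DecidableEq

namespace NF

def equivE : NF ≃ E where
  toFun := val
  invFun := mk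
  left_inv _ := rfl
  right_inv _ := rfl

instance : Fintype NF := Fintype.ofEquiv _ equivE.symm

theorem card_NF : Nat.card NF = 343 := by
  rw [Nat.card_congr equivE, Nat.card_eq_fintype_card, card_E]

instance : Zero NF := ⟨⟨0⟩⟩
instance : Add NF := ⟨fun x y => ⟨x.val + y.val⟩⟩
instance : Neg NF := ⟨fun x => ⟨-x.val⟩⟩

noncomputable instance instAddCommGroupNF : AddCommGroup NF where
  add_assoc x y z := NF.ext (add_assoc x.val y.val z.val)
  zero_add x := NF.ext (zero_add x.val)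
  add_zero x := NF.ext (add_zero x.val)
  add_comm x y := NF.ext (add_comm x.val y.val)
  neg_add_cancel x := NF.ext (neg_add_cancel x.val)
  nsmul := nsmulRec
  zsmul := zsmulRec

noncomputable instance : Nearfield NF where
  __ := instAddCommGroupNF
  mul x y := ⟨nmul x.val y.val⟩
  mul_assoc x y z := NF.ext (nmul_assoc _ _ _)
  one := ⟨1⟩
  one_mul x := NF.ext (one_nmul _)
  mul_one x := NF.ext (nmul_one _)
  zero_mul x := NF.ext (zero_nmul _)
  mul_zero x := NF.ext (nmul_zero _)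
  inv x := ⟨ninv x.val⟩
  exists_pair_ne := ⟨⟨0⟩, ⟨1⟩, fun h => zero_ne_one (congrArg NF.val h)⟩
  inv_zero := NF.ext ninv_zero
  mul_inv_cancel x hx := NF.ext (nmul_ninv x.val fun h => hx (NF.ext h))
  right_distrib' x y z := NF.ext (add_nmul _ _ _)

theorem val_mul (x y : NF) : (x * y).val = nmul x.val y.val := rfl
theorem val_add (x y : NF) : (x + y).val = x.val + y.val := rfl
theorem val_one : (1 : NF).val = 1 := rfl
theorem val_zero : (0 : NF).val = 0 := rfl

/-- the subgroup of order `171` -/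
def S : Subgroup NFˣ where
  carrier := {u | nrm (u : NF).val ^ 3 = 1}
  mul_mem' := by
    intro x y hx hy
    change nrm (x : NF).val ^ 3 = 1 at hx
    change nrm (y : NF).val ^ 3 = 1 at hy
    change nrm (nmul (x : NF).val (y : NF).val) ^ 3 = 1
    rw [nrm_nmul, mul_pow, hx, hy, one_mul]
  one_mem' := by
    change nrm 1 ^ 3 = 1
    rw [nrm_one, one_pow]
  inv_mem' := by
    intro x hx
    change nrm (x : NF).val ^ 3 = 1 at hx
    change nrm ((x⁻¹ : NFˣ) : NF).val ^ 3 = 1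
    have h1 : nrm ((x : NF) * ((x⁻¹ : NFˣ) : NF)).val = 1 := by
      rw [← Units.val_mul, mul_inv_cancel]
      exact nrm_one
    rw [val_mul, nrm_nmul] at h1
    have h2 := congrArg (· ^ 3) h1
    simp only [mul_pow, hx, one_mul, one_pow] at h2
    exact h2

theorem mem_S (u : NFˣ) : u ∈ S ↔ nrm (u : NF).val ^ 3 = 1 := Iff.rfl

theorem card_S : Nat.card S = 171 := by
  have h1 : Nat.card S = Nat.card {x : E // nrm x ^ 3 = 1} := by
    apply Nat.card_congr
    refine ⟨fun u => ⟨((u : NFˣ) : NF).val, u.2⟩,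
      fun x => ⟨Units.mk0 (⟨x.1⟩ : NF) ?_, ?_⟩, ?_, ?_⟩
    · intro h
      have h2 := x.2
      have h3 : x.1 = 0 := congrArg NF.val h
      rw [h3, nrm_zero] at h2
      exact absurd h2 (by decide)
    · exact x.2
    · intro u
      ext
      all_goals rfl
    · intro x
      rfl
  have h2 : Nat.card {x : E // nrm x ^ 3 = 1} =
      Nat.card {x : ZMod 7 × ZMod 7 × ZMod 7 // nrm ⟨x.1, x.2.1, x.2.2⟩ ^ 3 = 1} := by
    apply Nat.card_congr
    exact toProd.subtypeEquiv (fun x => Iff.rfl)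
  rw [h1, h2, Nat.card_eq_fintype_card]
  decide +kernel

/-- a generator of the subgroup of order `9` -/
noncomputable def gen : NFˣ := Units.mk0 (⟨⟨0, 3, 1⟩⟩ : NF) (by
  intro h
  have := congrArg (fun x : NF => x.val.b) h
  exact absurd this (by decide))

/-- the subgroup of order `9` -/
noncomputable def G : Subgroup NFˣ := Subgroup.zpowers gen

theorem gen_val : (gen : NF) = ⟨⟨0, 3, 1⟩⟩ := rfl

theorem pow_val (n : ℕ) : ((gen ^ n : NFˣ) : NF).val = (fun x => nmul x ⟨0, 3, 1⟩)^[n] 1 := by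
  induction n with
  | zero => rfl
  | succ n ih =>
    rw [pow_succ, Units.val_mul, val_mul, ih, Function.iterate_succ_apply']
    rfl

theorem order_gen : orderOf gen = 9 := by
  have h3 : ¬ gen ^ 3 ^ 1 = 1 := by
    intro h
    have h1 := pow_val (3 ^ 1)
    rw [h] at h1
    exact absurd h1 (by decide +kernel)
  have h9 : gen ^ 3 ^ (1 + 1) = 1 := by
    apply Units.ext
    apply NF.ext
    rw [pow_val]
    decide +kernel
  have : Fact (Nat.Prime 3) := ⟨by norm_num⟩
  exact orderOf_eq_prime_pow h3 h9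

theorem card_G : Nat.card G = 9 := by
  unfold G
  rw [Nat.card_zpowers, order_gen]

theorem G_le : G ≤ S := by
  unfold G
  rw [Subgroup.zpowers_le, mem_S, gen_val]
  decide +kernel

/-- the elements of `G` -/
theorem mem_G (n : ℕ) (x : NF) (h : (fun x => nmul x ⟨0, 3, 1⟩)^[n] 1 = x.val) :
    ∃ u ∈ G, (u : NF) = x :=
  ⟨gen ^ n, Subgroup.npow_mem_zpowers gen n, NF.ext (by rw [pow_val, h])⟩

theorem of_mem_G (u : NFˣ) (hu : u ∈ G) :
    ∃ n < 9, (fun x => nmul x ⟨0, 3, 1⟩)^[n] 1 = (u : NF).val := by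
  have h1 : gen ∈ G := Subgroup.mem_zpowers gen
  rw [G, ← mem_powers_iff_mem_zpowers, Submonoid.mem_powers_iff] at hu
  obtain ⟨n, hn⟩ := hu
  refine ⟨n % 9, Nat.mod_lt _ (by norm_num), ?_⟩
  rw [← pow_val, ← order_gen, pow_mod_orderOf, hn]

end NF

/-! ### Ninth roots of unity in the field of order `343` -/

def ninth : List E := [⟨1, 0, 0⟩, ⟨0, 1, 0⟩, ⟨0, 0, 1⟩, ⟨2, 0, 0⟩, ⟨0, 2, 0⟩, ⟨0, 0, 2⟩,
  ⟨4, 0, 0⟩, ⟨0, 4, 0⟩, ⟨0, 0, 4⟩]

theorem mem_ninth' : ∀ a b c : ZMod 7,
    (fun y : E => y * y * y) ((fun y : E => y * y * y) ⟨a, b, c⟩) = 1 →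
      (⟨a, b, c⟩ : E) ∈ ninth := by
  decide +kernel

theorem mem_ninth (x : E) (h : x ^ 9 = 1) : x ∈ ninth := by
  apply mem_ninth' x.a x.b x.c
  rw [← h]
  change x * x * x * (x * x * x) * (x * x * x) = x ^ 9
  ring

/-- the finite check behind `ratio_E` -/
def ratioCheck (a b c d : E) : Bool :=
  decide (a = 1) || decide (b = 1) || decide (c = 1) || decide (d = 1) || decide (a = b) ||
    decide (c = d) || decide (a = c) || !decide ((1 + -a) * (1 + -d) = (1 + -c) * (1 + -b))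

theorem ratio_E' : (ninth.all fun a => ninth.all fun b => ninth.all fun c => ninth.all fun d =>
    ratioCheck a b c d) = true := by
  decide +kernel

theorem ratio_E (a b c d : E) (ha : a ^ 9 = 1) (hb : b ^ 9 = 1) (hc : c ^ 9 = 1) (hd : d ^ 9 = 1)
    (ha1 : a ≠ 1) (hb1 : b ≠ 1) (hc1 : c ≠ 1) (hd1 : d ≠ 1) (hab : a ≠ b) (hcd : c ≠ d)
    (h : (1 - a) * (1 - d) = (1 - c) * (1 - b)) : a = c := by
  have h1 := ratio_E'
  simp only [List.all_eq_true] at h1
  have h2 := h1 a (mem_ninth a ha) b (mem_ninth b hb) c (mem_ninth c hc) d (mem_ninth d hd)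
  unfold ratioCheck at h2
  simp only [Bool.or_eq_true, decide_eq_true_eq, Bool.not_eq_true', decide_eq_false_iff_not,
    ← sub_eq_add_neg] at h2
  rcases h2 with ((((((h2 | h2) | h2) | h2) | h2) | h2) | h2) | h2
  · exact absurd h2 ha1
  · exact absurd h2 hb1
  · exact absurd h2 hc1
  · exact absurd h2 hd1
  · exact absurd h2 hab
  · exact absurd h2 hcd
  · exact h2
  · exact absurd h h2

section field

variable {F : Type} [Field F]

theorem ratio_F (hF : Nat.card F = 343) (a b c d : F) (ha : a ^ 9 = 1) (hb : b ^ 9 = 1)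
    (hc : c ^ 9 = 1) (hd : d ^ 9 = 1)
    (ha1 : a ≠ 1) (hb1 : b ≠ 1) (hc1 : c ≠ 1) (hd1 : d ≠ 1) (hab : a ≠ b) (hcd : c ≠ d)
    (h : (1 - a) * (1 - d) = (1 - c) * (1 - b)) : a = c := by
  have hfin : Finite F := Nat.finite_of_card_ne_zero (by rw [hF]; norm_num)
  have := Fintype.ofFinite F
  let φ : F ≃+* E := FiniteField.ringEquivOfCardEq (by
    rw [card_E, ← Nat.card_eq_fintype_card, hF])
  apply φ.injective
  have key : ∀ x : F, x ^ 9 = 1 → φ x ^ 9 = 1 := fun x hx => by rw [← map_pow, hx, map_one]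
  have key1 : ∀ x : F, x ≠ 1 → φ x ≠ 1 := fun x hx h => hx (φ.injective (by rw [h, map_one]))
  refine ratio_E (φ a) (φ b) (φ c) (φ d) (key a ha) (key b hb) (key c hc) (key d hd)
    (key1 a ha1) (key1 b hb1) (key1 c hc1) (key1 d hd1) (fun h => hab (φ.injective h))
    (fun h => hcd (φ.injective h)) ?_
  rw [← map_one φ, ← map_sub, ← map_sub, ← map_sub, ← map_sub, ← map_mul, ← map_mul, h]

/-- Two blocks of the Galois field design with three common points are equal. -/
theorem field_blocks (hF : Nat.card F = 343) (S G : Subgroup Fˣ) (hG : Nat.card G = 9)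
    {B C : Set F} (hB : B ∈ blocks F S G) (hC : C ∈ blocks F S G) {p q r : F} (hpq : p ≠ q)
    (hpr : p ≠ r) (hqr : q ≠ r) (pB : p ∈ B) (qB : q ∈ B) (rB : r ∈ B) (pC : p ∈ C) (qC : q ∈ C)
    (rC : r ∈ C) : B = C := by
  obtain ⟨s, -, a, rfl⟩ := hB
  obtain ⟨t, -, b, rfl⟩ := hC
  obtain ⟨u1, hu1, e1⟩ := pB
  obtain ⟨u2, hu2, e2⟩ := qB
  obtain ⟨u3, hu3, e3⟩ := rB
  obtain ⟨v1, hv1, f1⟩ := pC
  obtain ⟨v2, hv2, f2⟩ := qC
  obtain ⟨v3, hv3, f3⟩ := rC
  have pow9 : ∀ x ∈ G, ((x : Fˣ) : F) ^ 9 = 1 := by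
    intro x hx
    have h1 : (⟨x, hx⟩ : G) ^ Nat.card G = 1 := pow_card_eq_one'
    rw [hG] at h1
    have h2 := congrArg (fun y : G => ((y : Fˣ) : F)) h1
    simpa using h2
  have hs : ((s : Fˣ) : F) ≠ 0 := s.ne_zero
  have ht : ((t : Fˣ) : F) ≠ 0 := t.ne_zero
  have h1 : ((u1 : Fˣ) : F) ≠ 0 := u1.ne_zero
  have h2 : ((v1 : Fˣ) : F) ≠ 0 := v1.ne_zero
  have d12 : ((u2 : Fˣ) : F) ≠ u1 := by
    intro h; apply hpq; rw [e1, e2, h]
  have d13 : ((u3 : Fˣ) : F) ≠ u1 := by
    intro h; apply hpr; rw [e1, e3, h]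
  have d23 : ((u2 : Fˣ) : F) ≠ u3 := by
    intro h; apply hqr; rw [e2, e3, h]
  have g12 : ((v2 : Fˣ) : F) ≠ v1 := by
    intro h; apply hpq; rw [f1, f2, h]
  have g13 : ((v3 : Fˣ) : F) ≠ v1 := by
    intro h; apply hpr; rw [f1, f3, h]
  have g23 : ((v2 : Fˣ) : F) ≠ v3 := by
    intro h; apply hqr; rw [f2, f3, h]
  have k12 : ((u1 : F) - u2) * s = ((v1 : F) - v2) * t := by
    have h3 : p - q = p - q := rfl
    nth_rewrite 1 [e1, e2] at h3
    rw [f1, f2] at h3
    linear_combination h3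
  have k13 : ((u1 : F) - u3) * s = ((v1 : F) - v3) * t := by
    have h3 : p - r = p - r := rfl
    nth_rewrite 1 [e1, e3] at h3
    rw [f1, f3] at h3
    linear_combination h3
  have hne : ∀ x y : Fˣ, ((x : Fˣ) : F) ≠ y → ((x * y⁻¹ : Fˣ) : F) ≠ 1 := by
    intro x y h h'
    apply h
    have := congrArg (· * (y : F)) h'
    simpa using this
  have hne2 : ∀ x y z : Fˣ, ((x : Fˣ) : F) ≠ y → ((x * z⁻¹ : Fˣ) : F) ≠ ((y * z⁻¹ : Fˣ) : F) := by
    intro x y z h h'
    apply h
    have := congrArg (· * (z : F)) h'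
    simpa using this
  have key := ratio_F hF ((u2 * u1⁻¹ : Fˣ) : F) ((u3 * u1⁻¹ : Fˣ) : F) ((v2 * v1⁻¹ : Fˣ) : F)
    ((v3 * v1⁻¹ : Fˣ) : F) (pow9 _ (G.mul_mem hu2 (G.inv_mem hu1)))
    (pow9 _ (G.mul_mem hu3 (G.inv_mem hu1))) (pow9 _ (G.mul_mem hv2 (G.inv_mem hv1)))
    (pow9 _ (G.mul_mem hv3 (G.inv_mem hv1))) (hne _ _ d12) (hne _ _ d13) (hne _ _ g12)
    (hne _ _ g13) (hne2 _ _ _ d23) (hne2 _ _ _ g23) (by
      simp only [Units.val_mul, Units.val_inv_eq_inv_val]
      field_simp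
      have h3 : (((u1 : F) - u2) * ((v1 : F) - v3)) * (s * t) =
          (((v1 : F) - v2) * ((u1 : F) - u3)) * (s * t) := by
        linear_combination (((v1 : F) - v3) * t) * k12 - (((v1 : F) - v2) * t) * k13
      exact mul_right_cancel₀ (mul_ne_zero hs ht) h3)
  -- `u1 s = v1 t`
  have hut : (u1 : F) * s = v1 * t := by
    have h3 : (u2 : F) * v1 = v2 * u1 := by
      simp only [Units.val_mul, Units.val_inv_eq_inv_val] at key
      field_simp at key
      linear_combination key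
    have h4 : ((u1 : F) - u2) ≠ 0 := sub_ne_zero.2 d12.symm
    have h5 : (((u1 : F) - u2) * v1) * ((u1 : F) * s) = (((u1 : F) - u2) * v1) * (v1 * t) := by
      linear_combination (u1 * v1) * k12 + (t * v1) * h3
    exact mul_left_cancel₀ (mul_ne_zero h4 h2) h5
  have hab : a = b := by
    have h3 : p = p := rfl
    nth_rewrite 1 [e1] at h3
    rw [f1] at h3
    linear_combination h3 - hut
  subst hab
  have hus : u1 * s = v1 * t := Units.ext (by simpa using hut)
  ext y
  constructor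
  · rintro ⟨x, hx, rfl⟩
    refine ⟨x * u1⁻¹ * v1, G.mul_mem (G.mul_mem hx (G.inv_mem hu1)) hv1, ?_⟩
    have h3 : x * s = x * u1⁻¹ * v1 * t := by
      rw [mul_assoc (x * u1⁻¹), ← hus]; group
    have h4 := congrArg (fun z : Fˣ => (z : F)) h3
    simp only [Units.val_mul] at h4 ⊢
    rw [h4]
  · rintro ⟨x, hx, rfl⟩
    refine ⟨x * v1⁻¹ * u1, G.mul_mem (G.mul_mem hx (G.inv_mem hv1)) hu1, ?_⟩
    have h3 : x * t = x * v1⁻¹ * u1 * s := by
      rw [mul_assoc (x * v1⁻¹), hus]; group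
    have h4 := congrArg (fun z : Fˣ => (z : F)) h3
    simp only [Units.val_mul] at h4 ⊢
    rw [h4]

end field

/-! ### Two blocks of the nearfield design with three common points -/

open NF

/-- the factor of the second block -/
noncomputable def sB : NFˣ := Units.mk0 (⟨⟨0, 3, 2⟩⟩ : NF) (by
  intro h
  have := congrArg (fun x : NF => x.val.b) h
  exact absurd this (by decide))

theorem sB_mem : sB ∈ NF.S := by
  rw [mem_S]
  change nrm ⟨0, 3, 2⟩ ^ 3 = 1
  decide +kernel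

theorem sB_val : (sB : NF) = ⟨⟨0, 3, 2⟩⟩ := rfl

/-- the first block -/
def B0 : Set NF := {y | ∃ u ∈ NF.G, y = (u : NF) * ((1 : NFˣ) : NF) + 0}

/-- the second block -/
def B1 : Set NF := {y | ∃ u ∈ NF.G, y = (u : NF) * (sB : NF) + ⟨⟨1, 6, 0⟩⟩}

theorem B0_mem : B0 ∈ blocks NF NF.S NF.G := ⟨1, NF.S.one_mem, 0, rfl⟩
theorem B1_mem : B1 ∈ blocks NF NF.S NF.G := ⟨sB, sB_mem, _, rfl⟩

theorem in_B0 (x : NF) (n : ℕ) (h : (fun x => nmul x ⟨0, 3, 1⟩)^[n] 1 = x.val) : x ∈ B0 := by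
  obtain ⟨u, hu, hux⟩ := mem_G n x h
  exact ⟨u, hu, by rw [Units.val_one, mul_one, add_zero, hux]⟩

theorem in_B1 (x : NF) (n : ℕ)
    (h : nmul ((fun x => nmul x ⟨0, 3, 1⟩)^[n] 1) ⟨0, 3, 2⟩ + ⟨1, 6, 0⟩ = x.val) : x ∈ B1 := by
  obtain ⟨u, hu, hux⟩ := mem_G n ⟨(fun x => nmul x ⟨0, 3, 1⟩)^[n] 1⟩ rfl
  refine ⟨u, hu, ?_⟩
  apply NF.ext
  rw [hux, val_add, val_mul, sB_val]
  exact h.symm

theorem one_notMem_B1 : (1 : NF) ∉ B1 := by
  rintro ⟨u, hu, h⟩
  obtain ⟨n, hn, hnu⟩ := of_mem_G u hu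
  have h1 := congrArg NF.val h
  rw [val_add, val_mul, ← hnu, sB_val, val_one] at h1
  have key : ∀ n < 9,
      ¬ ((1 : E) = nmul ((fun x => nmul x ⟨0, 3, 1⟩)^[n] 1) ⟨0, 3, 2⟩ + ⟨1, 6, 0⟩) := by
    decide +kernel
  exact key n hn h1

theorem B0_ne_B1 : B0 ≠ B1 := by
  intro h
  apply one_notMem_B1
  rw [← h]
  exact in_B0 1 0 rfl

/-- There are a nearfield `N` of order `343 ≡ 3 (mod 4)`, the subgroup `S` of order `171` of its
multiplicative group and a subgroup `G ≤ S` of order `9` such that the design `D(N, Φ, G)` is not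
isomorphic to the Galois field design `D(343, 9)`, for any field `F` of order `343` and the
subgroups `S'` and `G'` of orders `171` and `9` of its multiplicative group. -/
theorem result : ∃ (N : Type) (_ : Nearfield N) (S G : Subgroup Nˣ),
    Nat.card N = 343 ∧ Nat.card S = 171 ∧ G ≤ S ∧ Nat.card G = 9 ∧
    ∀ (F : Type) (_ : Field F) (S' G' : Subgroup Fˣ),
      Nat.card F = 343 → Nat.card S' = 171 → Nat.card G' = 9 →
      ¬ ∃ f : N ≃ F, ∀ B : Set N, B ∈ blocks N S G ↔ f '' B ∈ blocks F S' G' := by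
  refine ⟨NF, inferInstance, NF.S, NF.G, card_NF, card_S, G_le, card_G, ?_⟩
  rintro F _ S' G' hF - hG' ⟨f, hf⟩
  have h0 := (hf B0).1 B0_mem
  have h1 := (hf B1).1 B1_mem
  apply B0_ne_B1
  apply f.injective.image_injective
  have hp : ∀ x y : NF, x.val ≠ y.val → f x ≠ f y := fun x y h h' =>
    h (congrArg NF.val (f.injective h'))
  refine field_blocks hF S' G' hG' h0 h1 (p := f ⟨⟨1, 4, 1⟩⟩) (q := f ⟨⟨0, 3, 1⟩⟩)
    (r := f ⟨⟨2, 1, 2⟩⟩) (hp _ _ (by decide)) (hp _ _ (by decide)) (hp _ _ (by decide))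
    ?_ ?_ ?_ ?_ ?_ ?_
  all_goals apply Set.mem_image_of_mem
  · exact in_B0 _ 2 (by decide +kernel)
  · exact in_B0 _ 1 (by decide +kernel)
  · exact in_B0 _ 5 (by decide +kernel)
  · exact in_B1 _ 6 (by decide +kernel)
  · exact in_B1 _ 2 (by decide +kernel)
  · exact in_B1 _ 4 (by decide +kernel)

end Pool.Agent.Results.MP_fd05bb_co.NearfieldOrder343
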